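import Pool.Agent.Helper69.ISO.Sheet
import Pool.Agent.Helper79.PN.Lem

/-!
Row G4 of the project ISO (MP_7c9036_mp): a full ring contains a wheel or is central.
-/

set_option autoImplicit false

open scoped Classical

namespace Pool.Agent.Helper8.ISO

open Pool.Agent.Helper79.PN Pool.Agent.Helper69.ISO

/-- the coordinates of the hubs of a ring -/
theorem shb (P : Pen) (z : Lam) (k : ZMod 5) :
    P.h (hb z k) k = P.h z k + (2 - g) ∧
    P.h (hb z k) (k + 1) = P.h z (k + 1) + (2 * g - 3) / 2 ∧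
    P.h (hb z k) (k - 1) = P.h z (k - 1) + (2 * g - 3) / 2 ∧
    P.h (hb z k) (k + 2) = P.h z (k + 2) - (g - 1) / 2 ∧
    P.h (hb z k) (k - 2) = P.h z (k - 2) - (g - 1) / 2 := by
  have h0 : z + e k - e (k + 1) - e (k - 1) = hb z k := rfl
  obtain ⟨a0, a1, a4, a2, a3⟩ := P.stp z k
  obtain ⟨b0, b1, b4, b2, b3⟩ := P.stp1 (z + e k) k
  obtain ⟨c0, c1, c4, c2, c3⟩ := P.stp4 (z + e k - e (k + 1)) k
  have s0 := P.h_sub_add (z + e k) (k + 1) k
  have s1 := P.h_sub_add (z + e k) (k + 1) (k + 1)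
  have s4 := P.h_sub_add (z + e k) (k + 1) (k - 1)
  have s2 := P.h_sub_add (z + e k) (k + 1) (k + 2)
  have s3 := P.h_sub_add (z + e k) (k + 1) (k - 2)
  have t0 := P.h_sub_add (z + e k - e (k + 1)) (k - 1) k
  have t1 := P.h_sub_add (z + e k - e (k + 1)) (k - 1) (k + 1)
  have t4 := P.h_sub_add (z + e k - e (k + 1)) (k - 1) (k - 1)
  have t2 := P.h_sub_add (z + e k - e (k + 1)) (k - 1) (k + 2)
  have t3 := P.h_sub_add (z + e k - e (k + 1)) (k - 1) (k - 2)
  rw [h0] at t0 t1 t4 t2 t3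
  refine ⟨?_, ?_, ?_, ?_, ?_⟩ <;> linarith

theorem hb_n (P : Pen) (z : Lam) (k : ZMod 5) : P.n (hb z k) = P.n z - 1 := by
  unfold hb
  rw [P.n_sub, P.n_sub, P.n_add]
  ring

/-- lower bounds at a full ring -/
theorem fr_low {P : Pen} {z : Lam} (h : FR P z) (k : ZMod 5) : -0.24 < P.h z k := by
  have h3 := P.rel2 z k
  have h1 := h.2 (k + 2)
  have h2 := h.2 (k - 2)
  have hg1 := g_gt
  have hg2 := g_lt
  by_contra hc
  push Not at hc
  nlinarith

/-- a hub of a full ring with small radial coordinate is a wheel -/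
theorem fr_wh {P : Pen} {z : Lam} (h : FR P z) (k : ZMod 5) (hk : P.h z k < (3 * g - 5) / 2) :
    Wh P (hb z k) := by
  have hn1 : P.n (hb z k) = 1 := by rw [hb_n, h.1]; norm_num
  obtain ⟨s0, s1, s4, s2, s3⟩ := shb P z k
  have hg1 := g_gt
  have hg2 := g_lt
  refine ⟨hn1, (inv1 hn1).2 ?_, ?_⟩
  · intro j
    rcases cas5 k j with hj | hj | hj | hj | hj <;> rw [hj]
    · rw [s0]; linarith [fr_low h k]
    · rw [s1]; linarith [fr_low h (k + 1)]
    · rw [s4]; linarith [fr_low h (k - 1)]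
    · rw [s2]; linarith [fr_low h (k + 2)]
    · rw [s3]; linarith [fr_low h (k - 2)]
  · intro j
    rcases cas5 k j with hj | hj | hj | hj | hj <;> rw [hj]
    · rw [s0]; linarith
    · rw [s1]; linarith [h.2 (k + 1)]
    · rw [s4]; linarith [h.2 (k - 1)]
    · rw [s2]; linarith [h.2 (k + 2)]
    · rw [s3]; linarith [h.2 (k - 2)]

theorem G4 (hNSL : ST_NSL) : ST_G4 := by
  intro P z h
  by_cases hc : ∀ k, (3 * g - 5) / 2 < P.h z k
  · exact Or.inr hc
  · left
    push Not at hc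
    obtain ⟨k, hk⟩ := hc
    exact ⟨k, fr_wh h k (lt_of_le_of_ne hk (hNSL.2.1 P z k h.1).2)⟩

end Pool.Agent.Helper8.ISO
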